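import Pool.Agent.X156.EH.BaseR

/-!
# The lattice points of the dilates of the base-`r` simplices
-/

set_option autoImplicit false

open Finset

namespace Pool.Agent.X156.EH

/-- the floor of `(r - 1) r ^ k m / r ^ d` -/
def fl (r d : ℕ) (k : Fin d) (m : ℕ) : ℕ := ((r - 1) * r ^ (k : ℕ) * m) / r ^ d

/-- the sum of the `d` lowest digits of `n` in base `r` -/
def ds (r d n : ℕ) : ℕ := ∑ j ∈ range d, (n / r ^ j) % r

theorem legendre (r n : ℕ) (d : ℕ) :
    n + ∑ j ∈ range d, n / r ^ (j + 1) = r * (∑ j ∈ range d, n / r ^ (j + 1)) + ds r d n +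
      n / r ^ d := by
  induction d with
  | zero => simp [ds]
  | succ d ih =>
    unfold ds at *
    rw [sum_range_succ, sum_range_succ, ← add_assoc, ih]
    have h : n / r ^ d = r * (n / r ^ (d + 1)) + (n / r ^ d) % r := by
      rw [pow_succ, ← Nat.div_div_eq_div_mul]
      exact (Nat.div_add_mod _ _).symm
    rw [mul_add]
    omega

theorem sum_fl {r d : ℕ} (hr : 2 ≤ r) (m : ℕ) :
    ∑ k : Fin d, fl r d k m = ∑ j ∈ range d, ((r - 1) * m) / r ^ (j + 1) := by
  unfold fl
  rw [Fin.sum_univ_eq_sum_range (fun k => ((r - 1) * r ^ k * m) / r ^ d), ← sum_range_reflect]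
  apply sum_congr rfl
  intro j hj
  rw [mem_range] at hj
  have e : r ^ d = r ^ (j + 1) * r ^ (d - 1 - j) := by
    rw [← pow_add]
    congr 1
    omega
  have e2 : (r - 1) * r ^ (d - 1 - j) * m = ((r - 1) * m) * r ^ (d - 1 - j) := by ring
  rw [e, e2, Nat.mul_div_mul_right]
  positivity

theorem key {r d : ℕ} (hr : 2 ≤ r) (m : ℕ) :
    (r - 1) * m = (r - 1) * (∑ k : Fin d, fl r d k m) + ds r d ((r - 1) * m) +
      ((r - 1) * m) / r ^ d := by
  rw [sum_fl hr]
  have h := legendre r ((r - 1) * m) d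
  obtain ⟨s, rfl⟩ : ∃ s, r = s + 1 := ⟨r - 1, by omega⟩
  rw [Nat.add_sub_cancel] at *
  generalize ∑ j ∈ range d, (s * m) / (s + 1) ^ (j + 1) = A at *
  have : (s + 1) * A = s * A + A := by ring
  omega

theorem sum_fl_le {r d : ℕ} (hr : 2 ≤ r) (m : ℕ) : ∑ k : Fin d, fl r d k m ≤ m := by
  have h := key (d := d) hr m
  have : (r - 1) * (∑ k : Fin d, fl r d k m) ≤ (r - 1) * m := by
    generalize ((r - 1) * m) / r ^ d = e at h
    omega
  exact Nat.le_of_mul_le_mul_left this (by omega)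

/-- the height -/
def W (r d b : ℕ) : ℕ := b - ∑ k : Fin d, fl r d k b

theorem W_add {r d : ℕ} (hr : 2 ≤ r) (b : ℕ) : W r d b + ∑ k : Fin d, fl r d k b = b :=
  Nat.sub_add_cancel (sum_fl_le hr b)

theorem W_eq {r d b : ℕ} (hr : 2 ≤ r) (hb : b < r ^ d) :
    W r d b = (ds r d ((r - 1) * b) + (r - 2)) / (r - 1) := by
  have h := key (d := d) hr b
  have h2 := W_add (d := d) hr b
  have h3 : ((r - 1) * b) / r ^ d < r - 1 := by
    rw [Nat.div_lt_iff_lt_mul (by positivity)]
    exact Nat.mul_lt_mul_of_pos_left hb (by omega)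
  have h4 : (r - 1) * W r d b = ds r d ((r - 1) * b) + ((r - 1) * b) / r ^ d := by
    have : (r - 1) * b = (r - 1) * W r d b + (r - 1) * ∑ k : Fin d, fl r d k b := by
      rw [← mul_add, h2]
    omega
  symm
  have h5 : 0 < r - 1 := by omega
  rw [Nat.div_eq_iff h5]
  rw [mul_comm] at h4
  generalize ((r - 1) * b) / r ^ d = e at h3 h4
  generalize W r d b * (r - 1) = f at h4 ⊢
  omega

theorem fl_add {r d : ℕ} (hr : 2 ≤ r) (k : Fin d) (q b : ℕ) :
    fl r d k (r ^ d * q + b) = (r - 1) * r ^ (k : ℕ) * q + fl r d k b := by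
  unfold fl
  have : (r - 1) * r ^ (k : ℕ) * (r ^ d * q + b) =
      (r - 1) * r ^ (k : ℕ) * b + r ^ d * ((r - 1) * r ^ (k : ℕ) * q) := by ring
  rw [this, Nat.add_mul_div_left _ _ (by positivity), add_comm]

theorem mem_int_iff {r d : ℕ} (hr : 2 ≤ r) (t : ℕ) (x : Fin d → ℤ) :
    (fun i => (x i : ℝ)) ∈ (fun y : Fin d → ℝ => (t : ℝ) • y) '' simplex r d ↔
      ∃ m : ℕ, (m : ℤ) = t - ∑ i, x i ∧ ∀ k, 0 ≤ x k + fl r d k m := by
  rw [mem_dilate_iff (by omega)]
  have hcast : ((t : ℝ) - ∑ i, (x i : ℝ)) = ((t - ∑ i, x i : ℤ) : ℝ) := by push_cast; ring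
  have hconv : ∀ (m : ℕ) (k : Fin d), (0 ≤ (r : ℝ) ^ d * (x k : ℝ) +
      (((r : ℝ) - 1) * (r : ℝ) ^ (k : ℕ)) * (m : ℝ)) ↔ 0 ≤ x k + fl r d k m := by
    intro m k
    have h1 : (r : ℝ) ^ d * (x k : ℝ) + (((r : ℝ) - 1) * (r : ℝ) ^ (k : ℕ)) * (m : ℝ) =
        (((r : ℤ) ^ d * x k + (((r - 1) * r ^ (k : ℕ) * m : ℕ) : ℤ) : ℤ) : ℝ) := by
      push_cast [Nat.cast_sub (show 1 ≤ r by omega)]
      ring
    rw [h1, show (0 : ℝ) = ((0 : ℤ) : ℝ) by simp, Int.cast_le]
    unfold fl
    push_cast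
    have hpos : (0 : ℤ) < (r : ℤ) ^ d := by positivity
    generalize ((r - 1 : ℕ) : ℤ) * (r : ℤ) ^ (k : ℕ) * (m : ℤ) = A
    constructor
    · intro h
      have : -x k ≤ A / (r : ℤ) ^ d := by
        rw [Int.le_ediv_iff_mul_le hpos]
        nlinarith
      linarith
    · intro h
      have : -x k ≤ A / (r : ℤ) ^ d := by linarith
      rw [Int.le_ediv_iff_mul_le hpos] at this
      nlinarith
  constructor
  · rintro ⟨h0, h1⟩
    rw [hcast] at h0 h1
    have h0' : 0 ≤ t - ∑ i, x i := by exact_mod_cast h0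
    obtain ⟨m, hm⟩ := Int.eq_ofNat_of_zero_le h0'
    refine ⟨m, hm.symm, fun k => ?_⟩
    rw [← hconv]
    have := h1 k
    rw [hm] at this
    exact_mod_cast this
  · rintro ⟨m, hm, h⟩
    rw [hcast, ← hm]
    refine ⟨by positivity, fun k => ?_⟩
    have := (hconv m k).2 (h k)
    exact_mod_cast this

theorem L_eq {r d : ℕ} (hr : 2 ≤ r) (t : ℕ) :
    L r d t = ∑ b ∈ range (r ^ d), if W r d b ≤ t then (t - W r d b + d).choose d else 0 := by
  classical
  let U : Finset (Σ _ : ℕ, (Fin (d + 1) → ℕ)) :=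
    (range (r ^ d)).sigma fun b => if W r d b ≤ t then
      (tuples_finite (d + 1) (t - W r d b)).toFinset else ∅
  let G : (Σ _ : ℕ, (Fin (d + 1) → ℕ)) → (Fin d → ℤ) := fun p k =>
    (p.2 k.succ : ℤ) - ((fl r d k (r ^ d * p.2 0 + p.1) : ℕ) : ℤ)
  have hU : ∀ p, p ∈ U ↔ p.1 < r ^ d ∧ ∑ i, p.2 i + W r d p.1 = t := by
    intro p
    rw [mem_sigma, mem_range]
    apply and_congr_right
    intro _
    split_ifs with h
    · rw [Set.Finite.mem_toFinset]
      unfold tuples
      rw [Set.mem_ofPred_eq]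
      omega
    · simp only [notMem_empty, false_iff]
      omega
  have hsum : ∀ p ∈ U, ((r ^ d * p.2 0 + p.1 : ℕ) : ℤ) = t - ∑ k, G p k := by
    intro p hp
    rw [hU] at hp
    have h1 : ∑ k, G p k = ∑ k : Fin d, (p.2 k.succ : ℤ) -
        ((∑ k : Fin d, fl r d k (r ^ d * p.2 0 + p.1) : ℕ) : ℤ) := by
      rw [sum_sub_distrib]
      push_cast
      rfl
    have h2 : (∑ k : Fin d, fl r d k (r ^ d * p.2 0 + p.1)) + p.2 0 =
        r ^ d * p.2 0 + ∑ k : Fin d, fl r d k p.1 := by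
      simp only [fl_add hr]
      rw [sum_add_distrib]
      have h3 : ∑ k : Fin d, (r - 1) * r ^ (k : ℕ) * p.2 0 + p.2 0 = r ^ d * p.2 0 := by
        rw [← sum_mul, Fin.sum_univ_eq_sum_range (fun k => (r - 1) * r ^ k), ← mul_sum]
        have h4 : (r - 1) * ∑ i ∈ range d, r ^ i + 1 = r ^ d := by
          have := Nat.geomSum_eq hr d
          have h5 : (r - 1) ∣ (r ^ d - 1) := by
            simpa using Nat.sub_dvd_pow_sub_pow r 1 d
          rw [this, Nat.mul_div_cancel' h5]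
          exact Nat.sub_add_cancel (Nat.one_le_pow _ _ (by omega))
        rw [← h4]
        ring
      omega
    have h3 := W_add (d := d) hr p.1
    have h4 := hp.2
    rw [Fin.sum_univ_succ] at h4
    rw [h1, ← Nat.cast_sum]
    omega
  have himg : {x : Fin d → ℤ | (fun i => (x i : ℝ)) ∈
      (fun y : Fin d → ℝ => (t : ℝ) • y) '' simplex r d} = G '' (U : Set _) := by
    ext x
    rw [Set.mem_ofPred_eq, mem_int_iff hr, Set.mem_image]
    constructor
    · rintro ⟨m, hm, h⟩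
      have hmod : r ^ d * (m / r ^ d) + m % r ^ d = m := Nat.div_add_mod _ _
      let z : Fin (d + 1) → ℕ := Fin.cons (m / r ^ d) fun k => (x k + fl r d k m).toNat
      have hG : G ⟨m % r ^ d, z⟩ = x := by
        funext k
        change (((x k + fl r d k m).toNat : ℕ) : ℤ) -
          ((fl r d k (r ^ d * (m / r ^ d) + m % r ^ d) : ℕ) : ℤ) = x k
        rw [hmod, Int.toNat_of_nonneg (h k)]
        ring
      refine ⟨⟨m % r ^ d, z⟩, ?_, hG⟩
      rw [mem_coe, hU]
      refine ⟨Nat.mod_lt _ (by positivity), ?_⟩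
      change ∑ i, z i + W r d (m % r ^ d) = t
      rw [Fin.sum_univ_succ]
      have h1 : ((∑ k : Fin d, z k.succ : ℕ) : ℤ) = ∑ k, x k +
          ((∑ k : Fin d, fl r d k m : ℕ) : ℤ) := by
        push_cast
        rw [← sum_add_distrib]
        apply sum_congr rfl
        intro k _
        change (((x k + fl r d k m).toNat : ℕ) : ℤ) = _
        rw [Int.toNat_of_nonneg (h k)]
      have h2 : (∑ k : Fin d, fl r d k m) + m / r ^ d =
          r ^ d * (m / r ^ d) + ∑ k : Fin d, fl r d k (m % r ^ d) := by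
        have h6 : ∀ k : Fin d, fl r d k m = (r - 1) * r ^ (k : ℕ) * (m / r ^ d) +
            fl r d k (m % r ^ d) := fun k => by
          rw [← fl_add hr, hmod]
        simp only [h6]
        rw [sum_add_distrib]
        have h3 : ∑ k : Fin d, (r - 1) * r ^ (k : ℕ) * (m / r ^ d) + m / r ^ d =
            r ^ d * (m / r ^ d) := by
          rw [← sum_mul, Fin.sum_univ_eq_sum_range (fun k => (r - 1) * r ^ k), ← mul_sum]
          have h4 : (r - 1) * ∑ i ∈ range d, r ^ i + 1 = r ^ d := by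
            have := Nat.geomSum_eq hr d
            have h5 : (r - 1) ∣ (r ^ d - 1) := by
              simpa using Nat.sub_dvd_pow_sub_pow r 1 d
            rw [this, Nat.mul_div_cancel' h5]
            exact Nat.sub_add_cancel (Nat.one_le_pow _ _ (by omega))
          rw [← h4]
          ring
        omega
      have h3 := W_add (d := d) hr (m % r ^ d)
      have h4 : z 0 = m / r ^ d := rfl
      rw [h4]
      omega
    · rintro ⟨p, hp, rfl⟩
      refine ⟨r ^ d * p.2 0 + p.1, hsum p hp, fun k => ?_⟩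
      change 0 ≤ (p.2 k.succ : ℤ) - _ + _
      rw [sub_add_cancel]
      positivity
  have hinj : Set.InjOn G (U : Set _) := by
    intro p hp p' hp' h
    rw [mem_coe] at hp hp'
    have h1 := hsum p hp
    have h2 := hsum p' hp'
    rw [h, ← h2] at h1
    have h3 : r ^ d * p.2 0 + p.1 = r ^ d * p'.2 0 + p'.1 := by exact_mod_cast h1
    have b1 := ((hU p).1 hp).1
    have b2 := ((hU p').1 hp').1
    have h4 : p.1 = p'.1 := by
      have := congrArg (fun n => n % r ^ d) h3
      simpa [Nat.mul_add_mod, Nat.mod_eq_of_lt b1, Nat.mod_eq_of_lt b2] using this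
    have h5 : p.2 0 = p'.2 0 := by
      rw [h4] at h3
      have h6 := Nat.add_right_cancel h3
      exact Nat.eq_of_mul_eq_mul_left (by positivity) h6
    have h6 : p.2 = p'.2 := by
      funext i
      refine Fin.cases h5 (fun k => ?_) i
      have h7 := congrFun h k
      change (p.2 k.succ : ℤ) - ((fl r d k (r ^ d * p.2 0 + p.1) : ℕ) : ℤ) =
        (p'.2 k.succ : ℤ) - ((fl r d k (r ^ d * p'.2 0 + p'.1) : ℕ) : ℤ) at h7
      rw [h3] at h7
      have := sub_left_injective h7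
      exact_mod_cast this
    obtain ⟨a, z⟩ := p
    obtain ⟨a', z'⟩ := p'
    simp only at h4 h6
    subst h4 h6
    rfl
  unfold L
  rw [himg, Set.InjOn.ncard_image hinj, Set.ncard_coe_finset, card_sigma]
  apply sum_congr rfl
  intro b _
  split_ifs with h
  · rw [← Set.ncard_eq_toFinset_card _ (tuples_finite _ _), ncard_tuples]
  · rfl

end Pool.Agent.X156.EH
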