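import Pool.Agent.X156.EH.Tuples

/-!
# Base-`r` simplices: definitions and the lattice point count
-/

set_option autoImplicit false

open Finset

namespace Pool.Agent.X156.EH

/-- The last vertex `-∑ (r - 1) r ^ (k - 1) e_k` (here `k` starts from `0`). -/
def apex (r d : ℕ) : Fin d → ℝ := fun k => -(((r : ℝ) - 1) * (r : ℝ) ^ (k : ℕ))

/-- The base-`r` `d`-simplex `conv (e_1, …, e_d, -∑ (r - 1) r ^ (k - 1) e_k)`. -/
def simplex (r d : ℕ) : Set (Fin d → ℝ) :=
  convexHull ℝ (insert (apex r d) (Set.range fun k : Fin d => (Pi.single k 1 : Fin d → ℝ)))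

/-- The number `L(t)` of the lattice points of the dilate `t B = {t y : y ∈ B}` of the simplex. -/
noncomputable def L (r d t : ℕ) : ℕ :=
  Set.ncard {x : Fin d → ℤ |
    (fun i => (x i : ℝ)) ∈ (fun y : Fin d → ℝ => (t : ℝ) • y) '' simplex r d}

theorem geom (r d : ℕ) : ∑ k : Fin d, ((r : ℝ) - 1) * (r : ℝ) ^ (k : ℕ) = (r : ℝ) ^ d - 1 := by
  rw [← mul_sum, Fin.sum_univ_eq_sum_range (fun k => (r : ℝ) ^ k), mul_comm]
  exact geom_sum_mul _ _

theorem mem_simplex_iff {r d : ℕ} (hr : 1 ≤ r) (y : Fin d → ℝ) :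
    y ∈ simplex r d ↔ 0 ≤ 1 - ∑ i, y i ∧
      ∀ k : Fin d, 0 ≤ (r : ℝ) ^ d * y k + (((r : ℝ) - 1) * (r : ℝ) ^ (k : ℕ)) * (1 - ∑ i, y i) := by
  have hr' : (1 : ℝ) ≤ r := by exact_mod_cast hr
  have hN : (0 : ℝ) < (r : ℝ) ^ d := by positivity
  constructor
  · intro hy
    let K : Set (Fin d → ℝ) := {y | 0 ≤ 1 - ∑ i, y i ∧
      ∀ k : Fin d, 0 ≤ (r : ℝ) ^ d * y k + (((r : ℝ) - 1) * (r : ℝ) ^ (k : ℕ)) * (1 - ∑ i, y i)}
    have hK : Convex ℝ K := by
      intro y hy z hz a b ha hb hab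
      have e : 1 - ∑ i, (a • y + b • z) i = a * (1 - ∑ i, y i) + b * (1 - ∑ i, z i) := by
        simp only [Pi.add_apply, Pi.smul_apply, smul_eq_mul, sum_add_distrib, ← mul_sum]
        linear_combination (-1 : ℝ) * hab
      refine ⟨?_, fun k => ?_⟩
      · rw [e]
        exact add_nonneg (mul_nonneg ha hy.1) (mul_nonneg hb hz.1)
      · rw [e]
        have h1 := mul_nonneg ha (hy.2 k)
        have h2 := mul_nonneg hb (hz.2 k)
        simp only [Pi.add_apply, Pi.smul_apply, smul_eq_mul]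
        nlinarith
    have hsub : simplex r d ⊆ K := by
      apply convexHull_min _ hK
      rintro z (rfl | ⟨k, rfl⟩)
      · have e : 1 - ∑ i, apex r d i = (r : ℝ) ^ d := by
          unfold apex
          rw [sum_neg_distrib, geom]
          ring
        refine ⟨?_, fun k => ?_⟩
        · rw [e]
          exact hN.le
        · rw [e]
          unfold apex
          apply le_of_eq
          ring
      · have e : 1 - ∑ i, (Pi.single k 1 : Fin d → ℝ) i = 0 := by
          rw [sum_pi_single']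
          simp
        refine ⟨?_, fun l => ?_⟩
        · rw [e]
        · rw [e, mul_zero, add_zero]
          apply mul_nonneg hN.le
          by_cases h : l = k
          · subst h
            simp
          · change 0 ≤ (Pi.single k 1 : Fin d → ℝ) l
            rw [Pi.single_eq_of_ne h]
    exact hsub hy
  · rintro ⟨h0, h1⟩
    let w : Option (Fin d) → ℝ := fun o => o.elim ((1 - ∑ i, y i) / (r : ℝ) ^ d)
      (fun k => y k + (((r : ℝ) - 1) * (r : ℝ) ^ (k : ℕ)) * ((1 - ∑ i, y i) / (r : ℝ) ^ d))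
    let f : Option (Fin d) → (Fin d → ℝ) := fun o => o.elim (apex r d) (fun k => Pi.single k 1)
    have hw : ∀ o ∈ univ, 0 ≤ w o := by
      rintro (_ | k) _
      · exact div_nonneg h0 hN.le
      · have : w (some k) = ((r : ℝ) ^ d * y k +
            (((r : ℝ) - 1) * (r : ℝ) ^ (k : ℕ)) * (1 - ∑ i, y i)) / (r : ℝ) ^ d := by
          change y k + (((r : ℝ) - 1) * (r : ℝ) ^ (k : ℕ)) * ((1 - ∑ i, y i) / (r : ℝ) ^ d) = _
          field_simp
        rw [this]
        exact div_nonneg (h1 k) hN.le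
    have hw1 : ∑ o, w o = 1 := by
      rw [Fintype.sum_option]
      change (1 - ∑ i, y i) / (r : ℝ) ^ d + ∑ k : Fin d, (y k + (((r : ℝ) - 1) *
        (r : ℝ) ^ (k : ℕ)) * ((1 - ∑ i, y i) / (r : ℝ) ^ d)) = 1
      rw [sum_add_distrib, ← sum_mul, geom]
      field_simp
      ring
    have hf : ∀ o ∈ univ, f o ∈ simplex r d := by
      rintro (_ | k) _
      · exact subset_convexHull ℝ _ (Set.mem_insert _ _)
      · exact subset_convexHull ℝ _ (Set.mem_insert_of_mem _ ⟨k, rfl⟩)
    have hmem := (convex_convexHull ℝ _).sum_mem hw hw1 hf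
    have hy : y = ∑ o, w o • f o := by
      ext j
      rw [Fintype.sum_option, Pi.add_apply, Finset.sum_apply]
      change y j = ((1 - ∑ i, y i) / (r : ℝ) ^ d) * apex r d j + ∑ k : Fin d, (y k +
        (((r : ℝ) - 1) * (r : ℝ) ^ (k : ℕ)) * ((1 - ∑ i, y i) / (r : ℝ) ^ d)) *
          (Pi.single k 1 : Fin d → ℝ) j
      generalize (1 - ∑ i, y i) / (r : ℝ) ^ d = μ
      rw [sum_eq_single j]
      · rw [Pi.single_eq_same]
        unfold apex
        ring
      · intro k _ hk
        rw [Pi.single_eq_of_ne hk.symm, mul_zero]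
      · intro h
        exact absurd (mem_univ _) h
    rw [hy]
    exact hmem

theorem mem_dilate_iff {r d : ℕ} (hr : 1 ≤ r) (t : ℕ) (x : Fin d → ℝ) :
    x ∈ (fun y : Fin d → ℝ => (t : ℝ) • y) '' simplex r d ↔ 0 ≤ t - ∑ i, x i ∧
      ∀ k : Fin d, 0 ≤ (r : ℝ) ^ d * x k + (((r : ℝ) - 1) * (r : ℝ) ^ (k : ℕ)) * (t - ∑ i, x i) := by
  have hr' : (1 : ℝ) ≤ r := by exact_mod_cast hr
  have hN : (0 : ℝ) < (r : ℝ) ^ d := by positivity
  constructor
  · rintro ⟨y, hy, rfl⟩
    rw [mem_simplex_iff hr] at hy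
    have ht : (0 : ℝ) ≤ t := Nat.cast_nonneg t
    simp only [Pi.smul_apply, smul_eq_mul, ← mul_sum]
    refine ⟨?_, fun k => ?_⟩
    · have := mul_nonneg ht hy.1
      linarith
    · have := mul_nonneg ht (hy.2 k)
      linarith
  · rintro ⟨h0, h1⟩
    rcases Nat.eq_zero_or_pos t with rfl | ht
    · have hs : ∑ k : Fin d, ((r : ℝ) ^ d * x k +
          (((r : ℝ) - 1) * (r : ℝ) ^ (k : ℕ)) * ((0 : ℕ) - ∑ i, x i)) = ∑ i, x i := by
        rw [sum_add_distrib, ← mul_sum, ← sum_mul, geom]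
        push_cast
        ring
      have h2 : 0 ≤ ∑ i, x i := by
        rw [← hs]
        exact sum_nonneg fun k _ => h1 k
      have h3 : ∑ i, x i = 0 := by
        push_cast at h0
        linarith
      have h4 : ∀ k, 0 ≤ x k := fun k => by
        have := h1 k
        rw [h3] at this
        push_cast at this
        rw [sub_zero, mul_zero, add_zero] at this
        exact nonneg_of_mul_nonneg_right this hN
      have h5 : ∀ k, x k = 0 := fun k =>
        (sum_eq_zero_iff_of_nonneg fun i _ => h4 i).1 h3 k (mem_univ _)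
      refine ⟨apex r d, subset_convexHull ℝ _ (Set.mem_insert _ _), ?_⟩
      ext k
      simp [h5 k]
    · have ht' : (0 : ℝ) < t := by exact_mod_cast ht
      refine ⟨fun i => x i / t, ?_, ?_⟩
      · rw [mem_simplex_iff hr]
        have e : 1 - ∑ i, x i / t = (t - ∑ i, x i) / t := by
          rw [← sum_div]
          field_simp
        rw [e]
        refine ⟨div_nonneg h0 ht'.le, fun k => ?_⟩
        have : (r : ℝ) ^ d * (x k / t) + (((r : ℝ) - 1) * (r : ℝ) ^ (k : ℕ)) *
            ((t - ∑ i, x i) / t) = ((r : ℝ) ^ d * x k + (((r : ℝ) - 1) * (r : ℝ) ^ (k : ℕ)) *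
              (t - ∑ i, x i)) / t := by
          field_simp
        rw [this]
        exact div_nonneg (h1 k) ht'.le
      · ext i
        simp only [Pi.smul_apply, smul_eq_mul]
        field_simp

end Pool.Agent.X156.EH
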