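import Pool.Agent.X156.EH.Walks

/-!
# The trace of powers of the matrix `#{e : i ≤ e, j ≤ e}` computed with lists
-/

set_option autoImplicit false

open Finset

namespace Pool.Agent.X156.EH

/-- the matrix `#{e : i ≤ e, j ≤ e}` -/
def MM (k : ℕ) : Matrix (Fin k) (Fin k) ℕ := fun i j => (univ.filter fun e => i ≤ e ∧ j ≤ e).card

/-- prefix sums -/
def pre (acc : ℕ) : List ℕ → List ℕ
  | [] => []
  | a :: l => (acc + a) :: pre (acc + a) l

/-- suffix sums, together with the total -/
def suf : List ℕ → List ℕ
  | [] => []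
  | a :: l => (a + l.sum) :: suf l

theorem length_pre (l : List ℕ) : ∀ acc, (pre acc l).length = l.length := by
  induction l with
  | nil => intro acc; rfl
  | cons a l ih => intro acc; simp [pre, ih]

theorem length_suf (l : List ℕ) : (suf l).length = l.length := by
  induction l with
  | nil => rfl
  | cons a l ih => simp [suf, ih]

theorem getD_pre (l : List ℕ) : ∀ (acc i : ℕ), i < l.length →
    (pre acc l).getD i 0 = acc + ∑ j ∈ range (i + 1), l.getD j 0 := by
  induction l with
  | nil => intro acc i h; simp at h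
  | cons a l ih =>
    intro acc i h
    rcases i with _ | i
    · simp [pre]
    · rw [pre, List.getD_cons_succ, ih _ _ (by simpa using h), sum_range_succ' _ (i + 1)]
      simp only [List.getD_cons_succ, List.getD_cons_zero]
      ring

theorem sum_eq (l : List ℕ) : l.sum = ∑ j ∈ range l.length, l.getD j 0 := by
  induction l with
  | nil => rfl
  | cons a l ih =>
    rw [List.sum_cons, List.length_cons, sum_range_succ', ih]
    simp only [List.getD_cons_succ, List.getD_cons_zero]
    ring

theorem getD_suf (l : List ℕ) : ∀ (i : ℕ), i < l.length →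
    (suf l).getD i 0 = ∑ j ∈ Ico i l.length, l.getD j 0 := by
  induction l with
  | nil => intro i h; simp at h
  | cons a l ih =>
    intro i h
    rcases i with _ | i
    · rw [suf, List.getD_cons_zero, ← Finset.range_eq_Ico, ← sum_eq, List.sum_cons]
    · rw [suf, List.getD_cons_succ, ih i (by simpa using h), List.length_cons,
        ← sum_Ico_add' (fun j => (a :: l).getD j 0) i l.length 1]
      simp only [List.getD_cons_succ]

/-- one step of the walk -/
def step (l : List ℕ) : List ℕ := suf (pre 0 l)

/-- `v` is represented by the list `l` -/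
def Rep {k : ℕ} (l : List ℕ) (v : Fin k → ℕ) : Prop := l.length = k ∧ ∀ i : Fin k, l.getD i 0 = v i

theorem rep_step {k : ℕ} {l : List ℕ} {v : Fin k → ℕ} (h : Rep l v) :
    Rep (step l) ((MM k).mulVec v) := by
  obtain ⟨h1, h2⟩ := h
  refine ⟨by rw [step, length_suf, length_pre, h1], fun i => ?_⟩
  have hi : (i : ℕ) < (pre 0 l).length := by
    rw [length_pre, h1]
    exact i.2
  rw [step, getD_suf _ _ hi, length_pre, h1]
  have e1 : ∑ j ∈ Ico (i : ℕ) k, (pre 0 l).getD j 0 =
      ∑ j ∈ Ico (i : ℕ) k, ∑ x ∈ range (j + 1), l.getD x 0 := by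
    apply sum_congr rfl
    intro j hj
    rw [mem_Ico] at hj
    rw [getD_pre _ _ _ (by omega), zero_add]
  rw [e1]
  unfold MM Matrix.mulVec dotProduct
  have e2 : ∀ j ∈ Ico (i : ℕ) k, ∑ x ∈ range (j + 1), l.getD x 0 =
      ∑ x : Fin k, if (x : ℕ) ≤ j then v x else 0 := by
    intro j hj
    rw [mem_Ico] at hj
    have h3 : ∑ x : Fin k, (if (x : ℕ) ≤ j then v x else 0) =
        ∑ x ∈ range k, if x ≤ j then l.getD x 0 else 0 := by
      rw [← Fin.sum_univ_eq_sum_range (fun x => if x ≤ j then l.getD x 0 else 0)]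
      apply sum_congr rfl
      intro x _
      rw [h2]
    rw [h3, ← sum_filter]
    apply sum_congr _ fun _ _ => rfl
    ext x
    simp only [mem_range, mem_filter]
    omega
  rw [sum_congr rfl e2, sum_comm]
  apply sum_congr rfl
  intro x _
  rw [← sum_filter, sum_const, smul_eq_mul]
  congr 1
  symm
  apply card_bij (fun (e : Fin k) _ => (e : ℕ))
  · intro e he
    rw [mem_filter] at he
    rw [mem_filter, mem_Ico]
    exact ⟨⟨he.2.1, e.2⟩, he.2.2⟩
  · intro a _ b _ h
    exact Fin.ext h
  · intro e he
    rw [mem_filter, mem_Ico] at he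
    exact ⟨⟨e, he.1.2⟩, by rw [mem_filter]; exact ⟨mem_univ _, he.1.1, he.2⟩, rfl⟩

theorem rep_iter {k : ℕ} {l : List ℕ} {v : Fin k → ℕ} (h : Rep l v) (n : ℕ) :
    Rep (step^[n] l) ((MM k ^ n).mulVec v) := by
  induction n with
  | zero => simpa using h
  | succ n ih =>
    rw [Function.iterate_succ_apply', pow_succ', ← Matrix.mulVec_mulVec]
    exact rep_step ih

/-- the basis vector -/
def bas (k s : ℕ) : List ℕ := (List.range k).map fun i => if i = s then 1 else 0

theorem rep_bas {k : ℕ} (s : Fin k) : Rep (bas k s) (Pi.single s 1 : Fin k → ℕ) := by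
  refine ⟨by simp [bas], fun i => ?_⟩
  unfold bas
  rw [List.getD_eq_getElem?_getD, List.getElem?_map, List.getElem?_range i.2]
  simp only [Option.map_some, Option.getD_some, Pi.single_apply, Fin.ext_iff]

/-- the trace of the `n`-th power of `MM k` -/
def TT (n k : ℕ) : ℕ := ((List.range k).map fun s => (step^[n] (bas k s)).getD s 0).sum

theorem trace_eq (n k : ℕ) : (MM k ^ n).trace = TT n k := by
  have h : ∀ s : Fin k, (MM k ^ n) s s = (step^[n] (bas k s)).getD s 0 := by
    intro s
    have := (rep_iter (rep_bas s) n).2 s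
    rw [this, Matrix.mulVec_single_one]
    rfl
  unfold TT Matrix.trace
  simp only [Matrix.diag_apply, h]
  rw [Fin.sum_univ_eq_sum_range (fun s => (step^[n] (bas k s)).getD s 0)]
  rfl

end Pool.Agent.X156.EH
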