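import Pool.Agent.X156.EH.BaseCount

/-!
# The distribution of digit sums
-/

set_option autoImplicit false

open Finset

namespace Pool.Agent.X156.EH

theorem ds_mod (r d n : ℕ) : ds r d (n % r ^ d) = ds r d n := by
  unfold ds
  apply sum_congr rfl
  intro j hj
  rw [mem_range] at hj
  have e : r ^ d = r ^ j * r ^ (d - j) := by
    rw [← pow_add]
    congr 1
    omega
  rw [e, Nat.mod_mul_right_div_self]
  exact Nat.mod_mod_of_dvd _ (dvd_pow_self r (by omega))

theorem sum_ds_mul {r d : ℕ} (hr : 2 ≤ r) (F : ℕ → ℕ) :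
    ∑ b ∈ range (r ^ d), F (ds r d ((r - 1) * b)) = ∑ c ∈ range (r ^ d), F (ds r d c) := by
  have hpos : 0 < r ^ d := by positivity
  have hinj : Set.InjOn (fun b => ((r - 1) * b) % r ^ d) (range (r ^ d) : Set ℕ) := by
    intro a ha b hb h
    rw [mem_coe, mem_range] at ha hb
    have hc : Nat.Coprime (r ^ d) (r - 1) := by
      apply Nat.Coprime.pow_left
      rw [Nat.coprime_comm]
      have := (Nat.coprime_self_add_right (m := r - 1) (n := 1)).2 (Nat.coprime_one_right _)
      rwa [Nat.sub_add_cancel (show 1 ≤ r by omega)] at this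
    have h1 : a ≡ b [MOD r ^ d] := Nat.ModEq.cancel_left_of_coprime hc h
    have h2 : a % r ^ d = b % r ^ d := h1
    rwa [Nat.mod_eq_of_lt ha, Nat.mod_eq_of_lt hb] at h2
  have himg : (range (r ^ d)).image (fun b => ((r - 1) * b) % r ^ d) = range (r ^ d) := by
    apply eq_of_subset_of_card_le
    · intro x hx
      rw [mem_image] at hx
      obtain ⟨b, _, rfl⟩ := hx
      rw [mem_range]
      exact Nat.mod_lt _ hpos
    · rw [card_image_of_injOn hinj]
  conv_rhs => rw [← himg, sum_image hinj]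
  apply sum_congr rfl
  intro b _
  rw [ds_mod]

theorem sum_range_mul' (m : ℕ) (f : ℕ → ℕ) (n : ℕ) :
    ∑ i ∈ range (m * n), f i = ∑ a ∈ range n, ∑ i ∈ range m, f (m * a + i) := by
  induction n with
  | zero => simp
  | succ n ih => rw [Nat.mul_succ, sum_range_add, ih, sum_range_succ]

theorem ds_split {r d a c : ℕ} (ha : a < r) (hc : c < r ^ d) :
    ds r (d + 1) (r ^ d * a + c) = ds r d c + a := by
  unfold ds
  rw [sum_range_succ]
  congr 1
  · have h := ds_mod r d (r ^ d * a + c)
    rw [Nat.mul_add_mod, Nat.mod_eq_of_lt hc] at h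
    exact h.symm
  · rw [Nat.mul_add_div (by omega), Nat.div_eq_of_lt hc, add_zero, Nat.mod_eq_of_lt ha]

/-- the sum of `l_i F(i)` -/
def dot : List ℕ → (ℕ → ℕ) → ℕ
  | [], _ => 0
  | a :: l, F => a * F 0 + dot l (fun i => F (i + 1))

/-- coefficientwise sum -/
def addL : List ℕ → List ℕ → List ℕ
  | [], m => m
  | l, [] => l
  | a :: l, b :: m => (a + b) :: addL l m

theorem dot_addL (l m : List ℕ) (F : ℕ → ℕ) : dot (addL l m) F = dot l F + dot m F := by
  induction l generalizing m F with
  | nil => simp [addL, dot]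
  | cons a l ih =>
    rcases m with _ | ⟨b, m⟩
    · simp [addL, dot]
    · simp only [addL, dot, ih]
      ring

/-- the coefficients of `p (1 + x + … + x ^ k)` -/
def hor (p : List ℕ) : ℕ → List ℕ
  | 0 => p
  | k + 1 => addL p (0 :: hor p k)

theorem dot_hor (p : List ℕ) (k : ℕ) (F : ℕ → ℕ) :
    dot (hor p k) F = ∑ a ∈ range (k + 1), dot p (fun i => F (i + a)) := by
  induction k generalizing F with
  | zero => simp [hor]
  | succ k ih =>
    rw [hor, dot_addL, dot, ih, sum_range_succ' _ (k + 1)]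
    simp only [zero_mul, zero_add, add_zero]
    rw [add_comm]
    congr 1

/-- the coefficients of `(1 + x + … + x ^ (r - 1)) ^ d` -/
def wts (r : ℕ) : ℕ → List ℕ
  | 0 => [1]
  | d + 1 => hor (wts r d) (r - 1)

theorem sum_ds {r : ℕ} (hr : 2 ≤ r) (d : ℕ) (F : ℕ → ℕ) :
    ∑ c ∈ range (r ^ d), F (ds r d c) = dot (wts r d) F := by
  induction d generalizing F with
  | zero => simp [wts, dot, ds]
  | succ d ih =>
    rw [pow_succ, sum_range_mul', wts, dot_hor, Nat.sub_add_cancel (by omega)]
    apply sum_congr rfl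
    intro a ha
    rw [mem_range] at ha
    rw [← ih]
    apply sum_congr rfl
    intro c hc
    rw [mem_range] at hc
    rw [ds_split ha hc]

theorem L_eq_dot {r d : ℕ} (hr : 2 ≤ r) (t : ℕ) :
    L r d t = dot (wts r d) (fun s => if (s + (r - 2)) / (r - 1) ≤ t then
      (t - (s + (r - 2)) / (r - 1) + d).choose d else 0) := by
  rw [L_eq hr, ← sum_ds hr]
  have h := sum_ds_mul (d := d) hr (fun s => if (s + (r - 2)) / (r - 1) ≤ t then
      (t - (s + (r - 2)) / (r - 1) + d).choose d else 0)
  rw [← h]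
  apply sum_congr rfl
  intro b hb
  rw [mem_range] at hb
  rw [W_eq hr hb]

end Pool.Agent.X156.EH
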