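import Mathlib

/-!
# The order polynomial of a finite relation is a polynomial
-/

set_option autoImplicit false

open Finset

namespace Pool.Agent.X156.EH

section

variable {P : Type} [Fintype P] [DecidableEq P] (le : P → P → Prop) [DecidableRel le]

/-- the order preserving maps to `Fin m` -/
def maps (m : ℕ) : Finset (P → Fin m) := univ.filter fun f => ∀ a b, le a b → f a ≤ f b

/-- the order preserving surjective maps to `Fin m` -/
def smaps (m : ℕ) : Finset (P → Fin m) := (maps le m).filter fun f => univ.image f = univ

theorem card_fiber (m : ℕ) (S : Finset (Fin m)) :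
    ((maps le m).filter fun f => univ.image f = S).card = (smaps le S.card).card := by
  symm
  let e := S.orderIsoOfFin rfl
  apply card_bij (fun (g : P → Fin S.card) _ => fun a => ((e (g a) : S) : Fin m))
  · intro g hg
    rw [smaps, mem_filter, maps, mem_filter] at hg
    rw [mem_filter, maps, mem_filter]
    refine ⟨⟨mem_univ _, fun a b hab => ?_⟩, ?_⟩
    · exact e.monotone (hg.1.2 a b hab)
    · ext x
      rw [mem_image]
      constructor
      · rintro ⟨a, _, rfl⟩
        exact (e (g a)).2
      · intro hx
        have h1 : e.symm ⟨x, hx⟩ ∈ univ.image g := by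
          rw [hg.2]
          exact mem_univ _
        rw [mem_image] at h1
        obtain ⟨a, _, ha⟩ := h1
        refine ⟨a, mem_univ _, ?_⟩
        rw [ha, OrderIso.apply_symm_apply]
  · intro g hg g' hg' h
    funext a
    have := congrFun h a
    exact e.injective (Subtype.ext this)
  · intro f hf
    rw [mem_filter, maps, mem_filter] at hf
    have hmem : ∀ a, f a ∈ S := fun a => by
      rw [← hf.2]
      exact mem_image_of_mem _ (mem_univ a)
    refine ⟨fun a => e.symm ⟨f a, hmem a⟩, ?_, ?_⟩
    · rw [smaps, mem_filter, maps, mem_filter]
      refine ⟨⟨mem_univ _, fun a b hab => ?_⟩, ?_⟩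
      · exact e.symm.monotone (hf.1.2 a b hab)
      · ext x
        simp only [mem_image, mem_univ, true_and, iff_true]
        have h1 : ((e x : S) : Fin m) ∈ univ.image f := by
          rw [hf.2]
          exact (e x).2
        rw [mem_image] at h1
        obtain ⟨a, _, ha⟩ := h1
        refine ⟨a, ?_⟩
        rw [OrderIso.symm_apply_eq]
        exact Subtype.ext ha
    · funext a
      simp only [OrderIso.apply_symm_apply]

theorem card_maps (m : ℕ) :
    (maps le m).card = ∑ k ∈ range (Fintype.card P + 1), m.choose k * (smaps le k).card := by
  have h1 : (maps le m).card = ∑ S ∈ (univ : Finset (Fin m)).powerset,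
      ((maps le m).filter fun f => univ.image f = S).card :=
    card_eq_sum_card_fiberwise fun f _ => by
      rw [mem_coe, mem_powerset]
      exact subset_univ _
  rw [h1]
  simp only [card_fiber]
  rw [sum_powerset_apply_card (fun k => (smaps le k).card), card_univ, Fintype.card_fin]
  simp only [smul_eq_mul]
  rcases le_total m (Fintype.card P) with h | h
  · apply sum_subset
    · intro k hk
      rw [mem_range] at *
      omega
    · intro k _ hk
      rw [mem_range] at hk
      rw [Nat.choose_eq_zero_of_lt (by omega), zero_mul]
  · symm
    apply sum_subset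
    · intro k hk
      rw [mem_range] at *
      omega
    · intro k _ hk
      rw [mem_range] at hk
      have : (smaps le k).card = 0 := by
        rw [card_eq_zero, eq_empty_iff_forall_notMem]
        intro f hf
        rw [smaps, mem_filter] at hf
        have h2 := card_image_le (s := (univ : Finset P)) (f := f)
        rw [hf.2, card_univ, card_univ, Fintype.card_fin] at h2
        omega
      rw [this, mul_zero]

open Polynomial in
theorem exists_poly : ∃ p : ℚ[X], p.natDegree ≤ Fintype.card P ∧
    ∀ m : ℕ, p.eval (m : ℚ) = ((maps le m).card : ℚ) := by
  refine ⟨∑ k ∈ range (Fintype.card P + 1),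
    C (((smaps le k).card : ℚ) / (k.factorial : ℚ)) * descPochhammer ℚ k, ?_, fun m => ?_⟩
  · apply natDegree_sum_le_of_forall_le
    intro k hk
    rw [mem_range] at hk
    refine (natDegree_C_mul_le _ _).trans ?_
    rw [descPochhammer_natDegree]
    omega
  · rw [eval_finsetSum, card_maps]
    push_cast
    apply sum_congr rfl
    intro k _
    rw [eval_mul, eval_C, descPochhammer_eval_eq_descFactorial, Nat.choose_eq_descFactorial_div_factorial,
      Nat.cast_div (Nat.factorial_dvd_descFactorial m k) (by positivity)]
    ring

end

end Pool.Agent.X156.EH
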