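import Pool.Agent.X156.EH.OrderPoly
import Pool.Agent.X156.EH.CrownList

/-!
# The face lattice of a polygon and its order polytope
-/

set_option autoImplicit false

open Finset

namespace Pool.Agent.X156.EH

/-- The faces of a convex `n`-gon: `inl false` is the empty face, `inl true` is the polygon,
`inr (inl i)` is the vertex `i`, and `inr (inr j)` is the edge joining the vertices `j` and
`j + 1` (indices modulo `n`). -/
abbrev Face (n : ℕ) : Type := Bool ⊕ (Fin n ⊕ Fin n)

/-- Inclusion of faces. -/
def incl (n : ℕ) : Face n → Face n → Prop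
  | Sum.inl false, _ => True
  | _, Sum.inl true => True
  | Sum.inr (Sum.inl i), Sum.inr (Sum.inr j) => (i : ℕ) = j ∨ (i : ℕ) = ((j : ℕ) + 1) % n
  | a, b => a = b

/-- The order polytope of the relation `le`. -/
def orderPolytope {P : Type} (le : P → P → Prop) : Set (P → ℝ) :=
  {x | (∀ a, 0 ≤ x a ∧ x a ≤ 1) ∧ ∀ a b, le a b → x a ≤ x b}

/-- The number of the lattice points of the dilate `t O(P) = {t y : y ∈ O(P)}`. -/
noncomputable def latticePoints {P : Type} (le : P → P → Prop) (t : ℕ) : ℕ :=
  Set.ncard {x : P → ℤ |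
    (fun a => (x a : ℝ)) ∈ (fun y : P → ℝ => (t : ℝ) • y) '' orderPolytope le}

theorem mem_dilate {P : Type} (le : P → P → Prop) (t : ℕ) (x : P → ℤ) :
    (fun a => (x a : ℝ)) ∈ (fun y : P → ℝ => (t : ℝ) • y) '' orderPolytope le ↔
      (∀ a, 0 ≤ x a ∧ x a ≤ t) ∧ ∀ a b, le a b → x a ≤ x b := by
  constructor
  · rintro ⟨y, ⟨hy1, hy2⟩, hxy⟩
    have ht : (0 : ℝ) ≤ t := Nat.cast_nonneg t
    have hx : ∀ a, (x a : ℝ) = t * y a := fun a => (congrFun hxy a).symm
    refine ⟨fun a => ⟨?_, ?_⟩, fun a b hab => ?_⟩
    · have : (0 : ℝ) ≤ (x a : ℝ) := by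
        rw [hx]
        exact mul_nonneg ht (hy1 a).1
      exact_mod_cast this
    · have : (x a : ℝ) ≤ (t : ℝ) := by
        rw [hx]
        exact mul_le_of_le_one_right ht (hy1 a).2
      exact_mod_cast this
    · have : (x a : ℝ) ≤ (x b : ℝ) := by
        rw [hx, hx]
        exact mul_le_mul_of_nonneg_left (hy2 a b hab) ht
      exact_mod_cast this
  · rintro ⟨h1, h2⟩
    rcases Nat.eq_zero_or_pos t with rfl | ht
    · refine ⟨fun _ => 0, ⟨fun _ => ⟨le_rfl, zero_le_one⟩, fun _ _ _ => le_rfl⟩, ?_⟩
      funext a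
      have := h1 a
      have h3 : x a = 0 := by
        push_cast at this
        omega
      simp [h3]
    · have ht' : (0 : ℝ) < t := by exact_mod_cast ht
      refine ⟨fun a => (x a : ℝ) / t, ⟨fun a => ⟨?_, ?_⟩, fun a b hab => ?_⟩, ?_⟩
      · apply div_nonneg _ ht'.le
        exact_mod_cast (h1 a).1
      · rw [div_le_one ht']
        exact_mod_cast (h1 a).2
      · apply div_le_div_of_nonneg_right _ ht'.le
        exact_mod_cast h2 a b hab
      · funext a
        simp only [Pi.smul_apply, smul_eq_mul]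
        field_simp

theorem latticePoints_eq {P : Type} [Fintype P] [DecidableEq P] (le : P → P → Prop)
    [DecidableRel le] (t : ℕ) : latticePoints le t = (maps le (t + 1)).card := by
  unfold latticePoints
  have : {x : P → ℤ | (fun a => (x a : ℝ)) ∈
      (fun y : P → ℝ => (t : ℝ) • y) '' orderPolytope le} =
      (fun f : P → Fin (t + 1) => (fun a => ((f a : ℕ) : ℤ))) '' (maps le (t + 1) : Set _) := by
    ext x
    rw [Set.mem_ofPred_eq, mem_dilate, Set.mem_image]
    constructor
    · rintro ⟨h1, h2⟩
      refine ⟨fun a => ⟨(x a).toNat, by have := h1 a; omega⟩, ?_, ?_⟩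
      · rw [mem_coe, maps, mem_filter]
        refine ⟨mem_univ _, fun a b hab => ?_⟩
        rw [Fin.mk_le_mk]
        have := h2 a b hab
        omega
      · funext a
        exact Int.toNat_of_nonneg (h1 a).1
    · rintro ⟨f, hf, rfl⟩
      rw [mem_coe, maps, mem_filter] at hf
      refine ⟨fun a => ⟨by positivity, ?_⟩, fun a b hab => ?_⟩
      · have := (f a).2
        change ((f a : ℕ) : ℤ) ≤ t
        omega
      · have := hf.2 a b hab
        rw [Fin.le_def] at this
        change ((f a : ℕ) : ℤ) ≤ ((f b : ℕ) : ℤ)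
        exact_mod_cast this
  rw [this, Set.ncard_image_of_injective, Set.ncard_coe_finset]
  intro f g h
  funext a
  apply Fin.ext
  have : ((f a : ℕ) : ℤ) = ((g a : ℕ) : ℤ) := congrFun h a
  exact_mod_cast this

theorem val_add_one_mod {n : ℕ} (i : Fin (n + 1)) : ((i + 1 : Fin (n + 1)) : ℕ) =
    ((i : ℕ) + 1) % (n + 1) := by
  rw [Fin.val_add, Fin.val_one', Nat.add_mod_mod]

/-- the pairs `(v, e)` of the values at the vertices and edges, between `a` and `b` -/
def crown (n m : ℕ) (a b : Fin m) : Finset ((Fin (n + 1) → Fin m) × (Fin (n + 1) → Fin m)) :=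
  univ.filter fun p => ∀ i, a ≤ p.1 i ∧ p.1 i ≤ p.2 i ∧ p.1 (i + 1) ≤ p.2 i ∧ p.2 i ≤ b

/-- the pairs `(v, e)` of the values at the vertices and edges -/
def crown' (n m : ℕ) : Finset ((Fin (n + 1) → Fin m) × (Fin (n + 1) → Fin m)) :=
  univ.filter fun p => ∀ i, p.1 i ≤ p.2 i ∧ p.1 (i + 1) ≤ p.2 i

theorem card_crown' (n m : ℕ) : (crown' n m).card = TT (n + 1) m := by
  rw [← trace_eq, ← closed_walk]
  unfold crown'
  rw [card_filter, ← univ_product_univ, sum_product]
  apply sum_congr rfl
  intro v _
  rw [← card_filter]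
  have : (univ.filter fun e : Fin (n + 1) → Fin m => ∀ i, (v, e).1 i ≤ (v, e).2 i ∧
      (v, e).1 (i + 1) ≤ (v, e).2 i) =
      Fintype.piFinset fun i => univ.filter fun x => v i ≤ x ∧ v (i + 1) ≤ x := by
    ext e
    simp [Fintype.mem_piFinset]
  rw [this, Fintype.card_piFinset]
  rfl

theorem card_crown (n m : ℕ) (a b : Fin m) : (crown n m a b).card =
    if (a : ℕ) ≤ b then TT (n + 1) ((b : ℕ) - a + 1) else 0 := by
  split_ifs with hab
  · rw [← card_crown']
    symm
    have hlt : ∀ x : Fin ((b : ℕ) - a + 1), (x : ℕ) + a < m := fun x => by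
      have h1 := x.2
      have h2 := b.2
      omega
    apply card_bij (fun p _ => ((fun i => (⟨(p.1 i : ℕ) + a, hlt _⟩ : Fin m)),
      (fun i => (⟨(p.2 i : ℕ) + a, hlt _⟩ : Fin m))))
    · intro p hp
      rw [crown', mem_filter] at hp
      rw [crown, mem_filter]
      refine ⟨mem_univ _, fun i => ?_⟩
      have h1 := hp.2 i
      rw [Fin.le_def, Fin.le_def] at h1
      simp only [Fin.le_def]
      have h2 := (p.2 i).2
      omega
    · intro p _ q _ h
      rw [Prod.mk.injEq] at h
      apply Prod.ext
      · funext i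
        have := congrFun h.1 i
        rw [Fin.mk.injEq] at this
        exact Fin.ext (by omega)
      · funext i
        have := congrFun h.2 i
        rw [Fin.mk.injEq] at this
        exact Fin.ext (by omega)
    · intro p hp
      rw [crown, mem_filter] at hp
      simp only [Fin.le_def] at hp
      refine ⟨((fun i => ⟨(p.1 i : ℕ) - a, by have := hp.2 i; omega⟩),
        (fun i => ⟨(p.2 i : ℕ) - a, by have := hp.2 i; omega⟩)), ?_, ?_⟩
      · rw [crown', mem_filter]
        refine ⟨mem_univ _, fun i => ?_⟩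
        simp only [Fin.le_def]
        have := hp.2 i
        omega
      · apply Prod.ext
        · funext i
          apply Fin.ext
          have := hp.2 i
          change (p.1 i : ℕ) - a + a = p.1 i
          omega
        · funext i
          apply Fin.ext
          have := hp.2 i
          change (p.2 i : ℕ) - a + a = p.2 i
          omega
  · rw [card_eq_zero, eq_empty_iff_forall_notMem]
    intro p hp
    rw [crown, mem_filter] at hp
    have := hp.2 0
    simp only [Fin.le_def] at this
    omega

theorem card_maps_incl (n m : ℕ) [DecidableRel (incl (n + 1))] :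
    (maps (incl (n + 1)) m).card =
      ∑ a : Fin m, ∑ b : Fin m, if (a : ℕ) ≤ b then TT (n + 1) ((b : ℕ) - a + 1) else 0 := by
  simp only [← card_crown]
  rw [← Fintype.sum_prod_type (fun p : Fin m × Fin m => (crown n m p.1 p.2).card), ← card_sigma]
  apply card_bij (fun (f : Face (n + 1) → Fin m) _ =>
    (⟨(f (Sum.inl false), f (Sum.inl true)), (fun i => f (Sum.inr (Sum.inl i)),
      fun i => f (Sum.inr (Sum.inr i)))⟩ : Σ _ : Fin m × Fin m,
        ((Fin (n + 1) → Fin m) × (Fin (n + 1) → Fin m))))
  · intro f hf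
    rw [maps, mem_filter] at hf
    rw [mem_sigma]
    refine ⟨mem_univ _, ?_⟩
    rw [crown, mem_filter]
    exact ⟨mem_univ _, fun i => ⟨hf.2 _ _ trivial, hf.2 _ _ (Or.inl rfl),
      hf.2 _ _ (Or.inr (val_add_one_mod i)), hf.2 _ _ (by unfold incl; trivial)⟩⟩
  · intro f _ g _ h
    rw [Sigma.mk.injEq, Prod.mk.injEq] at h
    obtain ⟨⟨h1, h2⟩, h3⟩ := h
    have h4 := eq_of_heq h3
    rw [Prod.mk.injEq] at h4
    funext x
    rcases x with (_ | _) | (i | j)
    · exact h1
    · exact h2
    · exact congrFun h4.1 i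
    · exact congrFun h4.2 j
  · intro p hp
    rw [mem_sigma, crown, mem_filter] at hp
    have hp := hp.2.2
    let f : Face (n + 1) → Fin m := fun x => match x with
      | Sum.inl false => p.1.1
      | Sum.inl true => p.1.2
      | Sum.inr (Sum.inl i) => p.2.1 i
      | Sum.inr (Sum.inr i) => p.2.2 i
    refine ⟨f, ?_, rfl⟩
    have hv : ∀ i, p.2.1 i ≤ p.1.2 := fun i => (hp i).2.1.trans (hp i).2.2.2
    have he : ∀ i, p.1.1 ≤ p.2.2 i := fun i => (hp i).1.trans (hp i).2.1
    rw [maps, mem_filter]
    refine ⟨mem_univ _, fun x y hxy => ?_⟩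
    rcases x with (_ | _) | (i | i) <;> rcases y with (_ | _) | (j | j)
    · exact le_rfl
    · exact (he 0).trans (hp 0).2.2.2
    · exact (hp j).1
    · exact he j
    · exact absurd hxy (by unfold incl; simp)
    · exact le_rfl
    · exact absurd hxy (by unfold incl; simp)
    · exact absurd hxy (by unfold incl; simp)
    · exact absurd hxy (by unfold incl; simp)
    · exact hv i
    · have : i = j := by
        unfold incl at hxy
        simpa using hxy
      rw [this]
    · have hxy' : (i : ℕ) = j ∨ (i : ℕ) = ((j : ℕ) + 1) % (n + 1) := hxy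
      rcases hxy' with h | h
      · rw [Fin.ext h]
        exact (hp j).2.1
      · rw [← val_add_one_mod] at h
        rw [Fin.ext h]
        exact (hp j).2.2.1
    · exact absurd hxy (by unfold incl; simp)
    · exact (hp i).2.2.2
    · exact absurd hxy (by unfold incl; simp)
    · have : i = j := by
        unfold incl at hxy
        simpa using hxy
      rw [this]

end Pool.Agent.X156.EH
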