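import Mathlib

/-!
# Counting tuples of natural numbers with a given sum
-/

set_option autoImplicit false

open Finset

namespace Pool.Agent.X156.EH

/-- the tuples of length `n` with sum `s` -/
def tuples (n s : ℕ) : Set (Fin n → ℕ) := {z | ∑ i, z i = s}

theorem tuples_eq (n s : ℕ) :
    tuples n s = (fun f : Fin n →₀ ℕ => (⇑f : Fin n → ℕ)) ''
      ((univ : Finset (Fin n)).finsuppAntidiag s : Set (Fin n →₀ ℕ)) := by
  ext z
  unfold tuples
  rw [Set.mem_ofPred_eq, Set.mem_image]
  constructor
  · intro h
    refine ⟨Finsupp.equivFunOnFinite.symm z, ?_, ?_⟩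
    · rw [mem_coe, mem_finsuppAntidiag]
      refine ⟨?_, subset_univ _⟩
      rw [← h]
      rfl
    · rfl
  · rintro ⟨f, hf, rfl⟩
    rw [mem_coe, mem_finsuppAntidiag] at hf
    exact hf.1

theorem tuples_finite (n s : ℕ) : (tuples n s).Finite := by
  rw [tuples_eq]
  exact Set.Finite.image _ (finite_toSet _)

theorem ncard_tuples (n s : ℕ) : (tuples (n + 1) s).ncard = (s + n).choose n := by
  rw [tuples_eq, Set.ncard_image_of_injective _ DFunLike.coe_injective, Set.ncard_coe_finset,
    card_finsuppAntidiag_nat_eq_choose, card_univ, Fintype.card_fin]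
  have : n + 1 + s - 1 = s + n := by omega
  rw [this, ← Nat.choose_symm_of_eq_add (n := s + n) (a := s) (b := n) rfl]

end Pool.Agent.X156.EH
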