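import Mathlib

/-!
# Closed walks and traces
-/

set_option autoImplicit false

open Finset

namespace Pool.Agent.X156.EH

section walks

set_option linter.unusedSectionVars false

variable {α : Type} [Fintype α] [DecidableEq α] (M : Matrix α α ℕ)

theorem sum_cons {n : ℕ} (g : (Fin (n + 1) → α) → ℕ) :
    ∑ v : Fin (n + 1) → α, g v = ∑ c : α, ∑ w : Fin n → α, g (Fin.cons c w) := by
  rw [← (Fin.consEquiv (fun _ : Fin (n + 1) => α)).sum_comp, Fintype.sum_prod_type]
  rfl

theorem walk (n : ℕ) : ∀ a b : α, (M ^ (n + 1)) a b = ∑ w : Fin n → α, ∏ i : Fin (n + 1),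
    M ((Fin.cons a w : Fin (n + 1) → α) i) ((Fin.snoc w b : Fin (n + 1) → α) i) := by
  induction n with
  | zero =>
    intro a b
    simp [Fin.snoc]
  | succ n ih =>
    intro a b
    rw [pow_succ' M (n + 1), Matrix.mul_apply, sum_cons]
    simp only [ih, mul_sum]
    apply sum_congr rfl
    intro c _
    apply sum_congr rfl
    intro w _
    have e : (Fin.snoc (Fin.cons c w : Fin (n + 1) → α) b : Fin (n + 2) → α) =
        Fin.cons c (Fin.snoc w b : Fin (n + 1) → α) := (Fin.cons_snoc_eq_snoc_cons c w b).symm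
    conv_rhs => rw [Fin.prod_univ_succ, e]
    simp only [Fin.cons_zero, Fin.cons_succ]

theorem closed_walk (n : ℕ) : ∑ v : Fin (n + 1) → α, ∏ i : Fin (n + 1), M (v i) (v (i + 1)) =
    (M ^ (n + 1)).trace := by
  rw [sum_cons, Matrix.trace]
  apply sum_congr rfl
  intro a _
  rw [Matrix.diag_apply, walk]
  apply sum_congr rfl
  intro w _
  apply prod_congr rfl
  intro i _
  congr 1
  refine Fin.lastCases ?_ (fun j => ?_) i
  · rw [Fin.last_add_one, Fin.cons_zero, Fin.snoc_last]
  · rw [Fin.snoc_castSucc, Fin.coeSucc_eq_succ, Fin.cons_succ]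

end walks

end Pool.Agent.X156.EH
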